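import Mathlib

set_option autoImplicit false

/-!
# Poincaré duality in dimension four: definitions

Homology of a group with coefficients is computed from the homogeneous bar complex: chains are finite
formal sums of tuples of elements of `G` with coefficients in a representation, modulo the relations
`g σ ⊗ g v = σ ⊗ v`.
-/

namespace Pool.Agent.H36PD4

/-- `n`-chains with coefficients in `V`: finite formal sums of `(n + 1)`-tuples of elements of `G` with
coefficients in `V`. -/
abbrev Chain (G : Type) (n : ℕ) (V : Type) [AddCommGroup V] := (Fin (n + 1) → G) →₀ V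

/-- The boundary. -/
noncomputable def vbd {G : Type} {n : ℕ} {V : Type} [AddCommGroup V] [Module ℝ V] :
    Chain G (n + 1) V →ₗ[ℝ] Chain G n V :=
  ∑ i : Fin (n + 2), (-1 : ℝ) ^ (i : ℕ) •
    Finsupp.lmapDomain V ℝ (fun (σ : Fin (n + 2) → G) (j : Fin (n + 1)) => σ (i.succAbove j))

/-- The relations `g σ ⊗ g v = σ ⊗ v`: a chain `z` is zero in the complex with coefficients in the
representation `ρ` if it is in `Rel ρ n`, and it is a cycle if `vbd z` is in `Rel ρ (n - 1)`. -/
noncomputable def Rel {G : Type} [Group G] {V : Type} [AddCommGroup V] [Module ℝ V] (ρ : Representation ℝ G V)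
    (n : ℕ) : Submodule ℝ (Chain G n V) :=
  Submodule.span ℝ {x | ∃ (g : G) (σ : Fin (n + 1) → G) (v : V),
    x = Finsupp.single (fun i => g * σ i) (ρ g v) - Finsupp.single σ v}

/-- The representation `ρ` twisted by a sign character `w`. -/
noncomputable def tw {G : Type} [Group G] {V : Type} [AddCommGroup V] [Module ℝ V] (w : G →* ℤˣ)
    (ρ : Representation ℝ G V) : Representation ℝ G V where
  toFun g := ((w g : ℤ) : ℝ) • ρ g
  map_one' := by simp
  map_mul' g h := by
    ext v
    simp [smul_smul, mul_comm]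

/-- The map `c` is equivariant: an `n`-cochain with coefficients in `ρ`. -/
def Equi {G : Type} [Group G] {V : Type} [AddCommGroup V] [Module ℝ V] (ρ : Representation ℝ G V)
    {n : ℕ} (c : (Fin (n + 1) → G) → V) : Prop :=
  ∀ (g : G) (σ : Fin (n + 1) → G), c (fun i => g * σ i) = ρ g (c σ)

/-- The coboundary of `c` is zero. -/
def Cocyc {G V : Type} [AddCommGroup V] [Module ℝ V] {n : ℕ} (c : (Fin (n + 1) → G) → V) : Prop :=
  ∀ τ : Fin (n + 2) → G, ∑ i : Fin (n + 2), (-1 : ℝ) ^ (i : ℕ) • c (fun j => τ (i.succAbove j)) = 0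

/-- The cap product of a real 4-chain with a 3-cochain (the cochain is evaluated on the first four
vertices). -/
noncomputable def capThree {G V : Type} [AddCommGroup V] [Module ℝ V] (μ : Chain G 4 ℝ)
    (F : (Fin 4 → G) → V) : Chain G 1 V :=
  μ.sum fun σ r => Finsupp.single ![σ 3, σ 4] (r • F ![σ 0, σ 1, σ 2, σ 3])

/-- The cap product of a real 4-chain with a 1-cochain (the cochain is evaluated on the last two
vertices). -/
noncomputable def capOne {G V : Type} [AddCommGroup V] [Module ℝ V] (μ : Chain G 4 ℝ)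
    (c : (Fin 2 → G) → V) : Chain G 3 V :=
  μ.sum fun σ r => Finsupp.single ![σ 0, σ 1, σ 2, σ 3] (r • c ![σ 3, σ 4])

/-- Duality in dimension four over the real numbers. There are an orientation character `w` and a
4-cycle `μ` with coefficients in the reals twisted by `w`, such that for every real representation `V`
of `G` the cap products with `μ`
`H^3(G; V) → H_1(G; V ⊗ w)` and `H^1(G; V) → H_3(G; V ⊗ w)` are surjective. -/
def DualityFour (G : Type) [Group G] : Prop :=
  ∃ (w : G →* ℤˣ) (μ : Chain G 4 ℝ),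
    vbd μ ∈ Rel (tw w (1 : Representation ℝ G ℝ)) 3 ∧
    (∀ (V : Type) [AddCommGroup V] [Module ℝ V] (ρ : Representation ℝ G V) (z : Chain G 1 V),
      vbd z ∈ Rel (tw w ρ) 0 →
      ∃ F : (Fin 4 → G) → V, Equi ρ F ∧ Cocyc F ∧
        ∃ u : Chain G 2 V, z - capThree μ F - vbd u ∈ Rel (tw w ρ) 1) ∧
    (∀ (V : Type) [AddCommGroup V] [Module ℝ V] (ρ : Representation ℝ G V) (z : Chain G 3 V),
      vbd z ∈ Rel (tw w ρ) 2 →
      ∃ c : (Fin 2 → G) → V, Equi ρ c ∧ Cocyc c ∧
        ∃ u : Chain G 4 V, z - capOne μ c - vbd u ∈ Rel (tw w ρ) 3)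

end Pool.Agent.H36PD4
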