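import Mathlib
import Pool.Agent.H36PD4.Defs

set_option autoImplicit false

/-!
# Pairings of chains with functional-valued cochains
-/

namespace Pool.Agent.H36PD4

theorem vbd_single {G : Type} {n : ℕ} {V : Type} [AddCommGroup V] [Module ℝ V]
    (τ : Fin (n + 2) → G) (v : V) :
    vbd (Finsupp.single τ v : Chain G (n + 1) V) = ∑ i : Fin (n + 2), (-1 : ℝ) ^ (i : ℕ) •
      (Finsupp.single (fun j => τ (i.succAbove j)) v : Chain G n V) := by
  simp only [vbd, LinearMap.sum_apply, LinearMap.smul_apply, Finsupp.lmapDomain_apply,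
    Finsupp.mapDomain_single]

/-- The pairing of chains with functional-valued cochains. -/
noncomputable def pair {G : Type} {n : ℕ} {V : Type} [AddCommGroup V] [Module ℝ V]
    (Φ : (Fin (n + 1) → G) → (V →ₗ[ℝ] ℝ)) : Chain G n V →ₗ[ℝ] ℝ :=
  Finsupp.lsum ℝ Φ

theorem pair_single {G : Type} {n : ℕ} {V : Type} [AddCommGroup V] [Module ℝ V]
    (Φ : (Fin (n + 1) → G) → (V →ₗ[ℝ] ℝ)) (σ : Fin (n + 1) → G) (v : V) :
    pair Φ (Finsupp.single σ v) = Φ σ v := by
  simp [pair]

theorem pair_rel {G : Type} [Group G] {n : ℕ} {V : Type} [AddCommGroup V] [Module ℝ V]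
    (ρ : Representation ℝ G V) (Φ : (Fin (n + 1) → G) → (V →ₗ[ℝ] ℝ))
    (h : ∀ (g : G) (σ : Fin (n + 1) → G) (v : V), Φ (fun i => g * σ i) (ρ g v) = Φ σ v)
    {z : Chain G n V} (hz : z ∈ Rel ρ n) : pair Φ z = 0 := by
  have h1 : Rel ρ n ≤ LinearMap.ker (pair Φ) := by
    rw [Rel, Submodule.span_le]
    rintro _ ⟨g, σ, v, rfl⟩
    simp only [SetLike.mem_coe, LinearMap.mem_ker, map_sub, pair_single, h, sub_self]
  exact h1 hz

theorem pair_vbd {G : Type} {n : ℕ} {V : Type} [AddCommGroup V] [Module ℝ V]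
    (Φ : (Fin (n + 1) → G) → (V →ₗ[ℝ] ℝ)) (u : Chain G (n + 1) V) :
    pair Φ (vbd u) = pair (fun τ : Fin (n + 2) → G =>
      ∑ i : Fin (n + 2), (-1 : ℝ) ^ (i : ℕ) • Φ (fun j => τ (i.succAbove j))) u := by
  induction u using Finsupp.induction_linear with
  | zero => simp
  | add f g hf hg => rw [map_add, map_add, map_add, hf, hg]
  | single τ v =>
    rw [vbd_single, map_sum, pair_single]
    simp only [map_smul, pair_single, LinearMap.sum_apply, LinearMap.smul_apply]

/-- The pairing of a bounded (or arbitrary) function with a finitely supported one. -/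
noncomputable def pr {X : Type} (f : X → ℝ) : (X →₀ ℝ) →ₗ[ℝ] ℝ := Finsupp.linearCombination ℝ f

theorem pr_single {X : Type} (f : X → ℝ) (x : X) (r : ℝ) : pr f (Finsupp.single x r) = r * f x := by
  simp [pr]

theorem pr_add {X : Type} (f g : X → ℝ) (v : X →₀ ℝ) : pr (f + g) v = pr f v + pr g v := by
  simp only [pr, Finsupp.linearCombination_apply, Pi.add_apply, smul_add, Finsupp.sum_add]

theorem pr_smul {X : Type} (r : ℝ) (f : X → ℝ) (v : X →₀ ℝ) : pr (r • f) v = r * pr f v := by
  simp only [pr, Finsupp.linearCombination_apply, Pi.smul_apply, smul_eq_mul]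
  rw [Finsupp.mul_sum]
  apply Finsupp.sum_congr
  intro x _
  ring

/-- The permutation representation on finitely supported functions. -/
noncomputable def perm (G X : Type) [Group G] [MulAction G X] : Representation ℝ G (X →₀ ℝ) where
  toFun g := Finsupp.lmapDomain ℝ ℝ (g • ·)
  map_one' := by
    ext x
    simp
  map_mul' g h := by
    ext x : 2
    simp only [LinearMap.comp_apply, Finsupp.lsingle_apply, Finsupp.lmapDomain_apply,
      Finsupp.mapDomain_single, Module.End.mul_apply, mul_smul]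

theorem perm_single {G X : Type} [Group G] [MulAction G X] (g : G) (x : X) (r : ℝ) :
    perm G X g (Finsupp.single x r) = Finsupp.single (g • x) r := by
  show Finsupp.lmapDomain ℝ ℝ (g • ·) (Finsupp.single x r) = _
  rw [Finsupp.lmapDomain_apply, Finsupp.mapDomain_single]

/-- Translation of functions. -/
theorem pr_perm {G X : Type} [Group G] [MulAction G X] (g : G) (f f' : X → ℝ)
    (h : ∀ x, f' (g • x) = f x) (v : X →₀ ℝ) :
    pr f' (perm G X g v) = pr f v := by
  induction v using Finsupp.induction_linear with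
  | zero => simp
  | add u v hu hv => rw [map_add, map_add, map_add, hu, hv]
  | single x r => rw [perm_single, pr_single, pr_single, h]

theorem tw_apply {G : Type} [Group G] {V : Type} [AddCommGroup V] [Module ℝ V] (w : G →* ℤˣ)
    (ρ : Representation ℝ G V) (g : G) (v : V) : tw w ρ g v = ((w g : ℤ) : ℝ) • ρ g v := rfl

theorem sq_sign {G : Type} [Group G] (w : G →* ℤˣ) (g : G) :
    ((w g : ℤ) : ℝ) * ((w g : ℤ) : ℝ) = 1 := by
  rcases Int.units_eq_one_or (w g) with h | h <;> rw [h] <;> simp

theorem abs_sign {G : Type} [Group G] (w : G →* ℤˣ) (g : G) :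
    |((w g : ℤ) : ℝ)| = 1 := by
  rcases Int.units_eq_one_or (w g) with h | h <;> rw [h] <;> simp

theorem sign_inv {G : Type} [Group G] (w : G →* ℤˣ) (g : G) :
    ((w g⁻¹ : ℤ) : ℝ) = ((w g : ℤ) : ℝ) := by
  rw [map_inv]
  rcases Int.units_eq_one_or (w g) with h | h <;> rw [h] <;> simp

theorem tw_tw {G : Type} [Group G] {V : Type} [AddCommGroup V] [Module ℝ V] (w : G →* ℤˣ)
    (ρ : Representation ℝ G V) : tw w (tw w ρ) = ρ := by
  ext g v
  rw [tw_apply, tw_apply, smul_smul, sq_sign, one_smul]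

/-- Bounded functions. -/
def Bdd (X : Type) : Submodule ℝ (X → ℝ) where
  carrier := {f | ∃ M : ℝ, ∀ x, |f x| ≤ M}
  add_mem' := by
    rintro f g ⟨M, hM⟩ ⟨M', hM'⟩
    exact ⟨M + M', fun x => (abs_add_le _ _).trans (add_le_add (hM x) (hM' x))⟩
  zero_mem' := ⟨0, fun x => by simp⟩
  smul_mem' := by
    rintro r f ⟨M, hM⟩
    refine ⟨|r| * M, fun x => ?_⟩
    rw [Pi.smul_apply, smul_eq_mul, abs_mul]
    exact mul_le_mul_of_nonneg_left (hM x) (abs_nonneg r)

/-- Translation of bounded functions. -/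
def permB (G X : Type) [Group G] [MulAction G X] : Representation ℝ G (Bdd X) where
  toFun g :=
    { toFun := fun f => ⟨fun x => f.1 (g⁻¹ • x), by
        obtain ⟨M, hM⟩ := f.2
        exact ⟨M, fun x => hM _⟩⟩
      map_add' := fun f f' => rfl
      map_smul' := fun r f => rfl }
  map_one' := by
    ext f x
    simp
  map_mul' g h := by
    ext f x
    simp [mul_smul]

theorem permB_apply {G X : Type} [Group G] [MulAction G X] (g : G) (f : Bdd X) (x : X) :
    (permB G X g f).1 x = f.1 (g⁻¹ • x) := rfl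

/-- The pairing with a finitely supported function, as a functional on bounded functions. -/
noncomputable def prB {X : Type} (v : X →₀ ℝ) : Bdd X →ₗ[ℝ] ℝ where
  toFun f := pr f.1 v
  map_add' f g := pr_add f.1 g.1 v
  map_smul' r f := pr_smul r f.1 v

theorem prB_apply {X : Type} (v : X →₀ ℝ) (f : Bdd X) : prB v f = pr f.1 v := rfl

end Pool.Agent.H36PD4
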