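import Mathlib
import Pool.Agent.AutDim3.Main
import Pool.Agent.H36PD4.Alg

set_option autoImplicit false

/-!
# The transfer of the fundamental cycle of a Heisenberg subgroup
-/

namespace Pool.Agent.H36PD4

open Pool.Agent.AutDim3

/-- The chain of `G` with constant coefficient `v₀` of a chain of the Heisenberg group. -/
noncomputable def T {G : Type} [Group G] {V : Type} [AddCommGroup V] [Module ℝ V] (φ : Heis →* G)
    (v₀ : V) (k : ℕ) : Ch Heis →ₗ[ℝ] Chain G k V :=
  Finsupp.linearCombination ℝ fun l : List Heis =>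
    if h : l.length = k + 1 then Finsupp.single (fun i => φ (l.get (i.cast h.symm))) v₀ else 0

theorem T_sg_ne {G : Type} [Group G] {V : Type} [AddCommGroup V] [Module ℝ V] (φ : Heis →* G)
    (v₀ : V) (k : ℕ) {l : List Heis} (h : l.length ≠ k + 1) : T φ v₀ k (sg l) = 0 := by
  simp only [T, sg, Finsupp.linearCombination_single, one_smul]
  rw [dif_neg h]

theorem T_sg_four {G : Type} [Group G] {V : Type} [AddCommGroup V] [Module ℝ V] (φ : Heis →* G)
    (v₀ : V) (p q r s : Heis) :
    T φ v₀ 3 (sg [p, q, r, s]) = Finsupp.single ![φ p, φ q, φ r, φ s] v₀ := by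
  simp only [T, sg, Finsupp.linearCombination_single, one_smul]
  rw [dif_pos (by rfl)]
  congr 1
  ext i
  fin_cases i <;> rfl

theorem T_sg_three {G : Type} [Group G] {V : Type} [AddCommGroup V] [Module ℝ V] (φ : Heis →* G)
    (v₀ : V) (p q r : Heis) :
    T φ v₀ 2 (sg [p, q, r]) = Finsupp.single ![φ p, φ q, φ r] v₀ := by
  simp only [T, sg, Finsupp.linearCombination_single, one_smul]
  rw [dif_pos (by rfl)]
  congr 1
  ext i
  fin_cases i <;> rfl

theorem T_bd {G : Type} [Group G] {V : Type} [AddCommGroup V] [Module ℝ V] (φ : Heis →* G)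
    (v₀ : V) {w : Ch Heis} (hw : w ∈ Deg (G := Heis) 4) :
    T φ v₀ 2 (bd w) = vbd (T φ v₀ 3 w) := by
  have := eq_of_sg (T φ v₀ 2 ∘ₗ bd) (vbd ∘ₗ T φ v₀ 3) (fun l hl => by
    match l, hl with
    | [p, q, r, s], _ =>
      rw [LinearMap.comp_apply, LinearMap.comp_apply, T_sg_four, vbd_single]
      simp only [bd_cons, bd_nil, map_zero, sub_zero, map_sub, cone_sg, T_sg_three]
      rw [Fin.sum_univ_four]
      have e0 : (fun j : Fin 3 => (![φ p, φ q, φ r, φ s] : Fin 4 → G) ((0 : Fin 4).succAbove j)) =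
          ![φ q, φ r, φ s] := by ext j; fin_cases j <;> rfl
      have e1 : (fun j : Fin 3 => (![φ p, φ q, φ r, φ s] : Fin 4 → G) ((1 : Fin 4).succAbove j)) =
          ![φ p, φ r, φ s] := by ext j; fin_cases j <;> rfl
      have e2 : (fun j : Fin 3 => (![φ p, φ q, φ r, φ s] : Fin 4 → G) ((2 : Fin 4).succAbove j)) =
          ![φ p, φ q, φ s] := by ext j; fin_cases j <;> rfl
      have e3 : (fun j : Fin 3 => (![φ p, φ q, φ r, φ s] : Fin 4 → G) ((3 : Fin 4).succAbove j)) =
          ![φ p, φ q, φ r] := by ext j; fin_cases j <;> rfl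
      rw [e0, e1, e2, e3]
      simp only [Fin.val_zero, Fin.val_one, Fin.val_two, pow_zero, pow_one, one_smul]
      have p3 : (-1 : ℝ) ^ ((3 : Fin 4) : ℕ) = -1 := by norm_num [show ((3 : Fin 4) : ℕ) = 3 from rfl]
      rw [p3]
      simp only [neg_smul, one_smul, even_two, Even.neg_pow, one_pow]
      abel) hw
  exact this

/-- The transfer of the fundamental cycle is a cycle. -/
theorem T_cycle {G : Type} [Group G] {V : Type} [AddCommGroup V] [Module ℝ V] (φ : Heis →* G)
    (ρ : Representation ℝ G V) (v₀ : V) (h : ∀ n, ρ (φ n) v₀ = v₀) :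
    vbd (T φ v₀ 3 fund) ∈ Rel ρ 2 := by
  rw [← T_bd φ v₀ fund_mem_deg, ← Submodule.Quotient.mk_eq_zero, ← Submodule.mkQ_apply]
  rw [← Module.forall_dual_apply_eq_zero_iff ℝ]
  intro f
  have := fund_cycle (f ∘ₗ (Rel ρ 2).mkQ ∘ₗ T φ v₀ 2) (by
    intro n l
    simp only [LinearMap.comp_apply, MonoidHom.id_apply]
    by_cases hl : l.length = 2 + 1
    · match l, hl with
      | [p, q, r], _ =>
        simp only [List.map_cons, List.map_nil, T_sg_three]
        congr 1
        rw [Submodule.mkQ_apply, Submodule.mkQ_apply, Submodule.Quotient.eq]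
        apply Submodule.subset_span
        refine ⟨φ n, ![φ p, φ q, φ r], v₀, ?_⟩
        rw [h]
        congr 2
        ext i
        fin_cases i <;> simp
    · rw [T_sg_ne φ v₀ 2 hl, T_sg_ne φ v₀ 2 (by simpa using hl)])
  exact this

/-- The pairing of the transfer with a functional-valued cochain. -/
theorem T_pair {G : Type} [Group G] {V : Type} [AddCommGroup V] [Module ℝ V] (φ : Heis →* G)
    (v₀ : V) (Φ : (Fin 4 → G) → (V →ₗ[ℝ] ℝ)) {w : Ch Heis} (hw : w ∈ Deg (G := Heis) 4) :
    pair Φ (T φ v₀ 3 w) = ofFun (fun σ => Φ σ v₀) (push φ w) := by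
  have := eq_of_sg (pair Φ ∘ₗ T φ v₀ 3) (ofFun (fun σ => Φ σ v₀) ∘ₗ push φ) (fun l hl => by
    match l, hl with
    | [p, q, r, s], _ =>
      rw [LinearMap.comp_apply, LinearMap.comp_apply, T_sg_four, pair_single, push_sg]
      simp only [List.map_cons, List.map_nil]
      rw [ofFun_sg]) hw
  exact this

/-- A cocycle which is invariant under a Heisenberg group and bounded by a `G`-invariant function
vanishes on the fundamental cycle. -/
theorem fund_zero {G : Type} [Group G] (hG : IsAutomatic G) (φ : Heis →* G)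
    (f : (Fin 4 → G) → ℝ) (hf : ∀ (n : Heis) (σ : Fin 4 → G), f (fun i => φ n * σ i) = f σ)
    (B : (Fin 4 → G) → ℝ) (hB : ∀ (g : G) (σ : Fin 4 → G), B (fun i => g * σ i) = B σ)
    (hfB : ∀ σ, |f σ| ≤ B σ)
    (hc : ∀ τ : Fin 5 → G, ∑ i : Fin 5, (-1 : ℝ) ^ (i : ℕ) * f (fun j => τ (i.succAbove j)) = 0) :
    ofFun f (push φ fund) = 0 := by
  obtain ⟨C⟩ := exists_comb G hG
  set F := ofFun f with hF
  have hi : InvUnder φ F := by
    intro n l
    by_cases hl : l.length = 4
    · match l, hl with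
      | [p, q, r, s], _ =>
        simp only [List.map_cons, List.map_nil]
        rw [hF, ofFun_sg, ofFun_sg, ← hf n ![p, q, r, s]]
        congr 1
        ext i
        fin_cases i <;> rfl
    · rw [hF, ofFun_sg_ne f hl, ofFun_sg_ne f (by simpa using hl)]
  have hcl : Closed 4 F := by
    intro l hl
    match l, hl with
    | [p, q, r, s, t], _ =>
      have h1 := hc ![p, q, r, s, t]
      simp only [bd_cons, bd_nil, map_zero, sub_zero, map_sub, cone_sg]
      rw [hF]
      simp only [ofFun_sg]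
      rw [Fin.sum_univ_five] at h1
      have e0 : (fun j : Fin 4 => (![p, q, r, s, t] : Fin 5 → G) ((0 : Fin 5).succAbove j)) =
          ![q, r, s, t] := by ext j; fin_cases j <;> rfl
      have e1 : (fun j : Fin 4 => (![p, q, r, s, t] : Fin 5 → G) ((1 : Fin 5).succAbove j)) =
          ![p, r, s, t] := by ext j; fin_cases j <;> rfl
      have e2 : (fun j : Fin 4 => (![p, q, r, s, t] : Fin 5 → G) ((2 : Fin 5).succAbove j)) =
          ![p, q, s, t] := by ext j; fin_cases j <;> rfl
      have e3 : (fun j : Fin 4 => (![p, q, r, s, t] : Fin 5 → G) ((3 : Fin 5).succAbove j)) =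
          ![p, q, r, t] := by ext j; fin_cases j <;> rfl
      have e4 : (fun j : Fin 4 => (![p, q, r, s, t] : Fin 5 → G) ((4 : Fin 5).succAbove j)) =
          ![p, q, r, s] := by ext j; fin_cases j <;> rfl
      rw [e0, e1, e2, e3, e4] at h1
      simp only [Fin.val_zero, Fin.val_one, Fin.val_two, pow_zero, pow_one, one_mul] at h1
      have p3 : (-1 : ℝ) ^ ((3 : Fin 5) : ℕ) = -1 := by norm_num [show ((3 : Fin 5) : ℕ) = 3 from rfl]
      have p4 : (-1 : ℝ) ^ ((4 : Fin 5) : ℕ) = 1 := by norm_num [show ((4 : Fin 5) : ℕ) = 4 from rfl]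
      rw [p3, p4] at h1
      linarith
  have hb : ∀ R : ℕ, ∃ M : ℝ, ∀ l : List G, l.length = 4 → C.Small R l → |F (sg l)| ≤ M := by
    intro R
    obtain ⟨M, hM⟩ := bounded_of_inv C (fun l => ofFun B (sg l)) (fun g l hl => by
      match l, hl with
      | [p, q, r, s], _ =>
        simp only [List.map_cons, List.map_nil]
        rw [ofFun_sg, ofFun_sg, ← hB g ![p, q, r, s]]
        congr 1
        ext i
        fin_cases i <;> rfl) R
    refine ⟨M, fun l hl hs => ?_⟩
    refine le_trans ?_ (hM l hl hs)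
    match l, hl with
    | [p, q, r, s], _ =>
      simp only [hF]
      rw [ofFun_sg, ofFun_sg]
      exact hfB _
  exact vanish C φ F hi hcl hb

end Pool.Agent.H36PD4
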