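import Mathlib
import Pool.Agent.AutDim3.Main
import Pool.Agent.H36PD4.Cyc
import Pool.Agent.H64Pair.ExistsOfPair

set_option autoImplicit false

/-!
# Automatic groups with duality in dimension four contain no Heisenberg group
-/

namespace Pool.Agent.H36PD4

open Pool.Agent.AutDim3

theorem pair_zero {G : Type} {n : ℕ} {V : Type} [AddCommGroup V] [Module ℝ V]
    (Φ : (Fin (n + 1) → G) → (V →ₗ[ℝ] ℝ)) (h : ∀ σ, Φ σ = 0) (u : Chain G n V) :
    pair Φ u = 0 := by
  induction u using Finsupp.induction_linear with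
  | zero => simp
  | add f g hf hg => rw [map_add, hf, hg, add_zero]
  | single τ v => rw [pair_single, h, LinearMap.zero_apply]

theorem pair_capOne {G : Type} {V : Type} [AddCommGroup V] [Module ℝ V]
    (Φ : (Fin 4 → G) → (V →ₗ[ℝ] ℝ)) (μ : Chain G 4 ℝ) (c : (Fin 2 → G) → V) :
    pair Φ (capOne μ c : Chain G 3 V) =
      μ.sum fun σ r => r * Φ ![σ 0, σ 1, σ 2, σ 3] (c ![σ 3, σ 4]) := by
  rw [capOne, Finsupp.sum, map_sum, Finsupp.sum]
  apply Finset.sum_congr rfl
  intro σ _
  rw [pair_single, map_smul, smul_eq_mul]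

theorem pair_capThree {G : Type} {V : Type} [AddCommGroup V] [Module ℝ V]
    (Φ : (Fin 2 → G) → (V →ₗ[ℝ] ℝ)) (μ : Chain G 4 ℝ) (F : (Fin 4 → G) → V) :
    pair Φ (capThree μ F : Chain G 1 V) =
      μ.sum fun σ r => r * Φ ![σ 3, σ 4] (F ![σ 0, σ 1, σ 2, σ 3]) := by
  rw [capThree, Finsupp.sum, map_sum, Finsupp.sum]
  apply Finset.sum_congr rfl
  intro σ _
  rw [pair_single, map_smul, smul_eq_mul]

/-- Homologous chains have the same pairing with a cocycle. -/
theorem pair_transfer {G X : Type} [Group G] [MulAction G X] (P : (Fin 4 → G) → X → ℝ)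
    (hP : ∀ (g : G) (σ : Fin 4 → G) (x : X), P (fun i => g * σ i) (g • x) = P σ x)
    (hc : ∀ (τ : Fin 5 → G) (x : X),
      ∑ i : Fin 5, (-1 : ℝ) ^ (i : ℕ) * P (fun j => τ (i.succAbove j)) x = 0)
    {z y : Chain G 3 (X →₀ ℝ)} {u : Chain G 4 (X →₀ ℝ)}
    (h : z - y - vbd u ∈ Rel (perm G X) 3) :
    pair (fun σ => pr (P σ)) z = pair (fun σ => pr (P σ)) y := by
  have h1 := pair_rel (perm G X) (fun σ => pr (P σ))
    (fun g σ v => pr_perm g _ _ (hP g σ) v) h
  rw [map_sub, map_sub, pair_vbd, pair_zero _ ?_ u, sub_zero] at h1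
  · linarith
  · intro τ
    apply Finsupp.lhom_ext
    intro x r
    simp only [LinearMap.sum_apply, LinearMap.smul_apply, pr_single, smul_eq_mul,
      LinearMap.zero_apply]
    have h2 := hc τ x
    have h3 : ∑ i : Fin 5, (-1 : ℝ) ^ (i : ℕ) * (r * P (fun j => τ (i.succAbove j)) x) =
        r * ∑ i : Fin 5, (-1 : ℝ) ^ (i : ℕ) * P (fun j => τ (i.succAbove j)) x := by
      rw [Finset.mul_sum]
      apply Finset.sum_congr rfl
      intro i _
      ring
    rw [h3, h2, mul_zero]

/-- Bounded cocycles vanish on the transfer of the fundamental cycle. -/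
theorem bounded_zero {G : Type} [Group G] (hG : IsAutomatic G) (φ : Heis →* G) {X : Type}
    [MulAction G X] (x₀ : X) (hx : ∀ n, φ n • x₀ = x₀) (F : (Fin 4 → G) → Bdd X)
    (hF : Equi (permB G X) (n := 3) F) (hc : Cocyc (n := 3) F) :
    pair (fun σ => pr (F σ).1) (T φ (Finsupp.single x₀ (1 : ℝ)) 3 fund) = 0 := by
  have : Nonempty X := ⟨x₀⟩
  rw [T_pair φ _ _ fund_mem_deg]
  have e : (fun σ => pr (F σ).1 (Finsupp.single x₀ 1)) = fun σ => (F σ).1 x₀ := by
    ext σ
    rw [pr_single, one_mul]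
  rw [e]
  refine fund_zero hG φ _ ?_ (fun σ => ⨆ x, |(F σ).1 x|) ?_ ?_ ?_
  · intro n σ
    rw [hF (φ n) σ, permB_apply]
    have : (φ n)⁻¹ • x₀ = x₀ := by
      rw [inv_smul_eq_iff, hx]
    rw [this]
  · intro g σ
    simp only [hF g σ, permB_apply]
    exact (MulAction.toPerm (g⁻¹ : G)).iSup_comp (g := fun x : X => |(F σ).1 x|)
  · intro σ
    obtain ⟨M, hM⟩ := (F σ).2
    exact le_ciSup (f := fun x => |(F σ).1 x|) ⟨M, by rintro _ ⟨x, rfl⟩; exact hM x⟩ x₀
  · intro τ
    have h1 := congrArg (prB (Finsupp.single x₀ (1 : ℝ))) (hc τ)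
    rw [map_sum, map_zero] at h1
    simp only [map_smul, prB_apply, pr_single, one_mul, smul_eq_mul] at h1
    exact h1

/-- A cocycle whose cap product is homologous to the transfer of the fundamental cycle pairs to zero
with all bounded cycles. -/
theorem cycle_zero {G : Type} [Group G] (hG : IsAutomatic G) (φ : Heis →* G) {X : Type}
    [MulAction G X] (x₀ : X) (hx : ∀ n, φ n • x₀ = x₀) (w : G →* ℤˣ) (μ : Chain G 4 ℝ)
    (c : (Fin 2 → G) → (X →₀ ℝ)) (hc : Equi (tw w (perm G X)) (n := 1) c)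
    (hcc : Cocyc (n := 1) c) (u : Chain G 4 (X →₀ ℝ))
    (h : T φ (Finsupp.single x₀ (1 : ℝ)) 3 fund - capOne μ c - vbd u ∈ Rel (perm G X) 3)
    (q : Chain G 1 (Bdd X)) (F : (Fin 4 → G) → Bdd X) (hF : Equi (permB G X) (n := 3) F)
    (hFc : Cocyc (n := 3) F) (u' : Chain G 2 (Bdd X))
    (hq : q - capThree μ F - vbd u' ∈ Rel (tw w (permB G X)) 1) :
    pair (fun σ => prB (c σ)) q = 0 := by
  have h1 := bounded_zero hG φ x₀ hx F hF hFc
  rw [pair_transfer (fun σ => (F σ).1) ?_ ?_ h, pair_capOne] at h1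
  · have h2 := pair_rel (tw w (permB G X)) (fun σ => prB (c σ)) ?_ hq
    · rw [map_sub, map_sub, pair_vbd, pair_zero _ ?_ u', sub_zero, pair_capThree] at h2
      · have h3 : (μ.sum fun σ r => r * prB (c ![σ 3, σ 4]) (F ![σ 0, σ 1, σ 2, σ 3])) = 0 := h1
        rw [h3, sub_zero] at h2
        exact h2
      · intro τ
        ext f
        simp only [LinearMap.sum_apply, LinearMap.smul_apply, prB_apply, LinearMap.zero_apply]
        have h4 := congrArg (pr f.1) (hcc τ)
        rw [map_sum, map_zero] at h4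
        simp only [map_smul] at h4
        exact h4
    · intro g σ f
      rw [hc g σ, prB_apply, tw_apply, tw_apply, map_smul]
      have h5 : ((((w g : ℤ) : ℝ) • permB G X g f : Bdd X) : X → ℝ) =
          ((w g : ℤ) : ℝ) • (permB G X g f).1 := rfl
      rw [h5, pr_smul, smul_eq_mul, ← mul_assoc, sq_sign, one_mul, prB_apply]
      apply pr_perm
      intro x
      rw [permB_apply, inv_smul_smul]
  · intro g σ x
    rw [hF g σ, permB_apply, inv_smul_smul]
  · intro τ x
    have h1 := congrArg (prB (Finsupp.single x (1 : ℝ))) (hFc τ)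
    rw [map_sum, map_zero] at h1
    simp only [map_smul, prB_apply, pr_single, one_mul, smul_eq_mul] at h1
    exact h1

/-- Families of finitely supported functions as one finitely supported function. -/
noncomputable def J {A X : Type} [Fintype A] : (A → X →₀ ℝ) →ₗ[ℝ] (A × X →₀ ℝ) :=
  ∑ a : A, Finsupp.lmapDomain ℝ ℝ (Prod.mk a) ∘ₗ LinearMap.proj a

theorem J_eq {A X : Type} [Fintype A] (v : A → X →₀ ℝ) :
    J v = ∑ a : A, Finsupp.mapDomain (Prod.mk a) (v a) := by
  simp only [J, LinearMap.sum_apply, LinearMap.comp_apply, LinearMap.proj_apply,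
    Finsupp.lmapDomain_apply]

theorem J_apply {A X : Type} [Fintype A] (v : A → X →₀ ℝ) (a : A) (x : X) :
    J v (a, x) = v a x := by
  classical
  rw [J_eq, Finsupp.finsetSum_apply, Finset.sum_eq_single a]
  · exact Finsupp.mapDomain_apply (Prod.mk_right_injective a) _ _
  · intro a' _ h
    apply Finsupp.mapDomain_of_notMem_range
    rintro ⟨y, hy⟩
    exact h (congrArg Prod.fst hy)
  · simp

theorem pr_J {A X : Type} [Fintype A] (ψ : A × X → ℝ) (v : A → X →₀ ℝ) :
    pr ψ (J v) = ∑ a : A, pr (fun x => ψ (a, x)) (v a) := by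
  rw [J_eq, map_sum]
  apply Finset.sum_congr rfl
  intro a _
  rw [pr, Finsupp.linearCombination_mapDomain]
  rfl

theorem perm_apply {G X : Type} [Group G] [MulAction G X] (g : G) (v : X →₀ ℝ) (x : X) :
    perm G X g v x = v (g⁻¹ • x) := by
  have h1 : perm G X g v (g • (g⁻¹ • x)) = v (g⁻¹ • x) :=
    Finsupp.mapDomain_apply (MulAction.injective g) v (g⁻¹ • x)
  rwa [smul_inv_smul] at h1

/-- A cocycle that pairs to zero with all bounded cycles is a coboundary. -/
theorem exists_b {G : Type} [Group G] {X : Type} [MulAction G X] (S : Finset G)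
    (hS : ∀ g : G, ∃ l : List G, (∀ s ∈ l, s ∈ S) ∧ l.prod = g) (w : G →* ℤˣ)
    (c : (Fin 2 → G) → (X →₀ ℝ)) (hc : Equi (tw w (perm G X)) (n := 1) c)
    (hcc : Cocyc (n := 1) c)
    (hz : ∀ q : Chain G 1 (Bdd X), vbd q ∈ Rel (tw w (permB G X)) 0 →
      pair (fun σ => prB (c σ)) q = 0) :
    ∃ b : X →₀ ℝ, ∀ g h : G, c ![g, h] = tw w (perm G X) h b - tw w (perm G X) g b := by
  classical
  set ρ := tw w (perm G X) with hρ
  set D : (X →₀ ℝ) →ₗ[ℝ] ({s // s ∈ S} × X →₀ ℝ) :=
    J ∘ₗ LinearMap.pi (fun s : {s // s ∈ S} => ρ s.1 - LinearMap.id) with hD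
  have hDJ : ∀ b, D b = J (fun s : {s // s ∈ S} => ρ s.1 b - b) := fun b => rfl
  obtain ⟨b, hb⟩ := Pool.Agent.H64Pair.exists_of_pair D (fun p => (p.1.1)⁻¹ • p.2) (fun p => p.2)
    (fun p => ((w p.1.1 : ℤ) : ℝ)) (fun _ => -1) (fun p => Or.inr (abs_sign w _))
    (fun _ => Or.inr (by simp)) (by
      rintro b ⟨s, x⟩
      rw [hDJ, J_apply, Finsupp.sub_apply, hρ, tw_apply, Finsupp.smul_apply, perm_apply,
        smul_eq_mul]
      ring) (J (fun s : {s // s ∈ S} => c ![1, s.1])) (by
      rintro ψ ⟨M, hM⟩ hψ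
      have hψ' : ∀ b, pr ψ (D b) = 0 := hψ
      show pr ψ (J (fun s : {s // s ∈ S} => c ![1, s.1])) = 0
      set f : {s // s ∈ S} → Bdd X := fun s => ⟨fun x => ψ (s, x), M, fun x => hM (s, x)⟩ with hf
      have h1 := hz (∑ s : {s // s ∈ S}, Finsupp.single ![1, s.1] (f s)) ?_
      · rw [map_sum] at h1
        rw [pr_J]
        rw [← h1]
        apply Finset.sum_congr rfl
        intro s _
        rw [pair_single]
        rfl
      · have h2 : ∀ s : {s // s ∈ S}, vbd (Finsupp.single ![1, s.1] (f s) : Chain G 1 (Bdd X)) =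
            (Finsupp.single (fun i => s.1 * (![1] : Fin 1 → G) i)
              (tw w (permB G X) s.1 (tw w (permB G X) s.1⁻¹ (f s))) -
              Finsupp.single ![1] (tw w (permB G X) s.1⁻¹ (f s))) +
            Finsupp.single ![1] (tw w (permB G X) s.1⁻¹ (f s) - f s) := by
          intro s
          have e1 : tw w (permB G X) s.1 (tw w (permB G X) s.1⁻¹ (f s)) = f s := by
            have : tw w (permB G X) s.1 * tw w (permB G X) s.1⁻¹ = 1 := by
              rw [← map_mul, mul_inv_cancel, map_one]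
            exact LinearMap.congr_fun this (f s)
          rw [e1, vbd_single, Fin.sum_univ_two]
          have e2 : (fun j : Fin 1 => (![1, s.1] : Fin 2 → G) ((0 : Fin 2).succAbove j)) =
              (fun i => s.1 * (![1] : Fin 1 → G) i) := by
            ext j; fin_cases j; simp
          have e3 : (fun j : Fin 1 => (![1, s.1] : Fin 2 → G) ((1 : Fin 2).succAbove j)) =
              ![1] := by
            ext j; fin_cases j; rfl
          rw [e2, e3, Finsupp.single_sub]
          simp only [Fin.val_zero, Fin.val_one, pow_zero, pow_one, one_smul, neg_smul]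
          abel
        rw [map_sum, Finset.sum_congr rfl (fun s _ => h2 s), Finset.sum_add_distrib]
        have h3 : ∑ s : {s // s ∈ S}, (tw w (permB G X) s.1⁻¹ (f s) - f s) = 0 := by
          apply Subtype.ext
          funext x
          have h4 := hψ' (Finsupp.single x 1)
          rw [hDJ, pr_J] at h4
          have h5 : ((∑ s : {s // s ∈ S}, (tw w (permB G X) s.1⁻¹ (f s) - f s) : Bdd X) : X → ℝ) x
              = ∑ s : {s // s ∈ S}, (((w s.1 : ℤ) : ℝ) * ψ (s, s.1 • x) - ψ (s, x)) := by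
            rw [AddSubmonoidClass.coe_finsetSum, Finset.sum_apply]
            apply Finset.sum_congr rfl
            intro s _
            rw [tw_apply, sign_inv]
            show ((w s.1 : ℤ) : ℝ) * ψ (s, s.1⁻¹⁻¹ • x) - ψ (s, x) = _
            rw [inv_inv]
          rw [h5]
          refine Eq.trans ?_ h4
          apply Finset.sum_congr rfl
          intro s _
          rw [hρ, tw_apply, perm_single, map_sub, map_smul, pr_single, pr_single, smul_eq_mul,
            one_mul, one_mul]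
        have h6 : ∑ s : {s // s ∈ S}, (Finsupp.single ![1] (tw w (permB G X) s.1⁻¹ (f s) - f s) :
            Chain G 0 (Bdd X)) = 0 := by
          rw [← Finsupp.single_finsetSum, h3, Finsupp.single_zero]
        rw [h6, add_zero]
        apply Submodule.sum_mem
        intro s _
        exact Submodule.subset_span ⟨s.1, ![1], _, rfl⟩)
  refine ⟨b, ?_⟩
  have hgen : ∀ s ∈ S, c ![1, s] = ρ s b - b := by
    intro s hs
    ext x
    have h1 := J_apply (fun s : {s // s ∈ S} => c ![1, s.1]) ⟨s, hs⟩ x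
    rw [← hb, hDJ, J_apply] at h1
    exact h1.symm
  have hcoc : ∀ g h k : G, c ![h, k] - c ![g, k] + c ![g, h] = 0 := by
    intro g h k
    have h1 := hcc ![g, h, k]
    rw [Fin.sum_univ_three] at h1
    have e0 : (fun j : Fin 2 => (![g, h, k] : Fin 3 → G) ((0 : Fin 3).succAbove j)) =
        ![h, k] := by ext j; fin_cases j <;> rfl
    have e1 : (fun j : Fin 2 => (![g, h, k] : Fin 3 → G) ((1 : Fin 3).succAbove j)) =
        ![g, k] := by ext j; fin_cases j <;> rfl
    have e2 : (fun j : Fin 2 => (![g, h, k] : Fin 3 → G) ((2 : Fin 3).succAbove j)) =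
        ![g, h] := by ext j; fin_cases j <;> rfl
    rw [e0, e1, e2] at h1
    simp only [Fin.val_zero, Fin.val_one, Fin.val_two, pow_zero, pow_one, one_smul, neg_smul,
      even_two, Even.neg_pow, one_pow] at h1
    rw [← h1]
    abel
  have hequi : ∀ g h k : G, c ![g * h, g * k] = ρ g (c ![h, k]) := by
    intro g h k
    rw [← hc g ![h, k]]
    congr 1
    ext j
    fin_cases j <;> rfl
  have h1 : ∀ l : List G, (∀ s ∈ l, s ∈ S) → c ![1, l.prod] = ρ l.prod b - b := by
    intro l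
    induction l with
    | nil =>
      intro _
      have h2 := hcoc 1 1 1
      rw [List.prod_nil, map_one, Module.End.one_apply, sub_self]
      simpa using h2
    | cons s l ih =>
      intro hl
      have h3 := ih (fun s' hs' => hl s' (List.mem_cons_of_mem _ hs'))
      have h4 := hcoc 1 s (s * l.prod)
      have h5 := hequi s 1 l.prod
      rw [mul_one] at h5
      rw [h5, h3, hgen s (hl s List.mem_cons_self)] at h4
      rw [List.prod_cons, map_mul, Module.End.mul_apply]
      rw [map_sub] at h4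
      have h6 : c ![1, s * l.prod] = ρ s (ρ l.prod b) - ρ s b + (ρ s b - b) := by
        rw [← sub_eq_zero, ← neg_eq_zero, ← h4]
        abel
      rw [h6]
      abel
  intro g h
  obtain ⟨l, hl, hp⟩ := hS (g⁻¹ * h)
  have h2 := hequi g 1 (g⁻¹ * h)
  rw [mul_one, mul_inv_cancel_left] at h2
  rw [h2, ← hp, h1 l hl, hp, map_sub, map_mul]
  congr 1
  rw [Module.End.mul_apply]
  have h3 : ρ g (ρ g⁻¹ (ρ h b)) = (ρ g * ρ g⁻¹) (ρ h b) := rfl
  rw [h3, ← map_mul, mul_inv_cancel, map_one, Module.End.one_apply]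

theorem gen_of_automatic {G : Type} [Group G] (hG : IsAutomatic G) :
    ∃ S : Finset G, ∀ g : G, ∃ l : List G, (∀ s ∈ l, s ∈ S) ∧ l.prod = g := by
  obtain ⟨S, _, L, _, hL, _⟩ := hG
  refine ⟨S, fun g => ?_⟩
  obtain ⟨v, _, hv⟩ := hL g
  refine ⟨v.map Subtype.val, ?_, hv⟩
  intro s hs
  rw [List.mem_map] at hs
  obtain ⟨t, _, rfl⟩ := hs
  exact t.2

/-- Function-valued cochains from invariant functions. -/
noncomputable def coind {G : Type} [Group G] (N : Subgroup G) (f : (Fin 4 → G) → ℝ) :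
    (Fin 4 → G) → (G ⧸ N) → ℝ :=
  fun σ x => f (fun i => x.out⁻¹ * σ i)

theorem coind_equi {G : Type} [Group G] (N : Subgroup G) (f : (Fin 4 → G) → ℝ)
    (hf : ∀ n ∈ N, ∀ σ : Fin 4 → G, f (fun i => n * σ i) = f σ) (g : G) (σ : Fin 4 → G)
    (x : G ⧸ N) : coind N f (fun i => g * σ i) (g • x) = coind N f σ x := by
  have h1 : ((g • x).out : G) = g * x.out * ((g * x.out)⁻¹ * (g • x).out) := by group
  have h2 : (g * x.out)⁻¹ * (g • x).out ∈ N := by
    rw [← QuotientGroup.eq, QuotientGroup.out_eq']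
    conv_rhs => rw [← QuotientGroup.out_eq' x]
    rfl
  simp only [coind]
  rw [← hf _ h2 (fun i => (g • x).out⁻¹ * (g * σ i))]
  congr 1
  ext i
  group

theorem coind_one {G : Type} [Group G] (N : Subgroup G) (f : (Fin 4 → G) → ℝ)
    (hf : ∀ n ∈ N, ∀ σ : Fin 4 → G, f (fun i => n * σ i) = f σ) (σ : Fin 4 → G) :
    coind N f σ ((1 : G) : G ⧸ N) = f σ := by
  simp only [coind]
  apply hf
  rw [inv_mem_iff]
  have : ((((1 : G) : G ⧸ N).out : G) : G ⧸ N) = ((1 : G) : G ⧸ N) := QuotientGroup.out_eq' _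
  rw [QuotientGroup.eq] at this
  have h2 := N.inv_mem this
  simpa using h2

/-- An automatic group with duality in dimension four contains no Heisenberg group. -/
theorem no_heis_four {G : Type} [Group G] (hG : IsAutomatic G) (hd : DualityFour G)
    (φ : Heis →* G) (hφ : Function.Injective φ) : False := by
  obtain ⟨S, hS⟩ := gen_of_automatic hG
  obtain ⟨w, μ, hμ, h31, h13⟩ := hd
  obtain ⟨r, hr1, hr2⟩ := exists_retraction φ hφ
  set N := φ.range with hN
  set x₀ : G ⧸ N := ((1 : G) : G ⧸ N) with hx₀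
  have hx : ∀ n, φ n • x₀ = x₀ := by
    intro n
    show ((φ n * 1 : G) : G ⧸ N) = ((1 : G) : G ⧸ N)
    rw [mul_one, QuotientGroup.eq, mul_one]
    exact N.inv_mem ⟨n, rfl⟩
  set z : Chain G 3 ((G ⧸ N) →₀ ℝ) := T φ (Finsupp.single x₀ (1 : ℝ)) 3 fund with hz
  have hzc : vbd z ∈ Rel (tw w (tw w (perm G (G ⧸ N)))) 2 := by
    rw [tw_tw]
    apply T_cycle
    intro n
    rw [perm_single, hx]
  obtain ⟨c, hc, hcc, u, hu⟩ := h13 _ _ z hzc
  rw [tw_tw] at hu
  obtain ⟨b, hb⟩ := exists_b S hS w c hc hcc (by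
    intro q hq
    obtain ⟨F, hF, hFc, u', hu'⟩ := h31 _ _ q hq
    exact cycle_zero hG φ x₀ hx w μ c hc hcc u hu q F hF hFc u' hu')
  -- the volume cocycle
  set V : Ch G →ₗ[ℝ] ℝ := nu ∘ₗ push r with hV
  set f : (Fin 4 → G) → ℝ := fun σ => V (sg [σ 0, σ 1, σ 2, σ 3]) with hf
  have hfi : ∀ n ∈ N, ∀ σ : Fin 4 → G, f (fun i => n * σ i) = f σ := by
    rintro _ ⟨n, rfl⟩ σ
    simp only [hf, hV, LinearMap.comp_apply, push_sg, List.map_cons, List.map_nil, hr1]
    exact nu_inv n [r (σ 0), r (σ 1), r (σ 2), r (σ 3)]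
  have hfc : ∀ τ : Fin 5 → G,
      ∑ i : Fin 5, (-1 : ℝ) ^ (i : ℕ) * f (fun j => τ (i.succAbove j)) = 0 := by
    intro τ
    have h1 := nu_closed [r (τ 0), r (τ 1), r (τ 2), r (τ 3), r (τ 4)] (by rfl)
    simp only [bd_cons, bd_nil, map_zero, sub_zero, map_sub, cone_sg] at h1
    rw [Fin.sum_univ_five]
    have e0 : f (fun j : Fin 4 => τ ((0 : Fin 5).succAbove j)) =
        nu (sg [r (τ 1), r (τ 2), r (τ 3), r (τ 4)]) := by
      simp only [hf, hV, LinearMap.comp_apply, push_sg, List.map_cons, List.map_nil]; rfl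
    have e1 : f (fun j : Fin 4 => τ ((1 : Fin 5).succAbove j)) =
        nu (sg [r (τ 0), r (τ 2), r (τ 3), r (τ 4)]) := by
      simp only [hf, hV, LinearMap.comp_apply, push_sg, List.map_cons, List.map_nil]; rfl
    have e2 : f (fun j : Fin 4 => τ ((2 : Fin 5).succAbove j)) =
        nu (sg [r (τ 0), r (τ 1), r (τ 3), r (τ 4)]) := by
      simp only [hf, hV, LinearMap.comp_apply, push_sg, List.map_cons, List.map_nil]; rfl
    have e3 : f (fun j : Fin 4 => τ ((3 : Fin 5).succAbove j)) =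
        nu (sg [r (τ 0), r (τ 1), r (τ 2), r (τ 4)]) := by
      simp only [hf, hV, LinearMap.comp_apply, push_sg, List.map_cons, List.map_nil]; rfl
    have e4 : f (fun j : Fin 4 => τ ((4 : Fin 5).succAbove j)) =
        nu (sg [r (τ 0), r (τ 1), r (τ 2), r (τ 3)]) := by
      simp only [hf, hV, LinearMap.comp_apply, push_sg, List.map_cons, List.map_nil]; rfl
    rw [e0, e1, e2, e3, e4]
    simp only [Fin.val_zero, Fin.val_one, Fin.val_two, pow_zero, pow_one, one_mul]
    have p3 : (-1 : ℝ) ^ ((3 : Fin 5) : ℕ) = -1 := by norm_num [show ((3 : Fin 5) : ℕ) = 3 from rfl]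
    have p4 : (-1 : ℝ) ^ ((4 : Fin 5) : ℕ) = 1 := by norm_num [show ((4 : Fin 5) : ℕ) = 4 from rfl]
    rw [p3, p4]
    linarith
  set P := coind N f with hP
  have hPe : ∀ (g : G) (σ : Fin 4 → G) (x : G ⧸ N), P (fun i => g * σ i) (g • x) = P σ x :=
    coind_equi N f hfi
  have hPc : ∀ (τ : Fin 5 → G) (x : G ⧸ N),
      ∑ i : Fin 5, (-1 : ℝ) ^ (i : ℕ) * P (fun j => τ (i.succAbove j)) x = 0 := by
    intro τ x
    exact hfc (fun i => x.out⁻¹ * τ i)
  have h1 : pair (fun σ => pr (P σ)) z = 1 := by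
    rw [hz, T_pair φ _ _ fund_mem_deg]
    have e1 : (fun σ => pr (P σ) (Finsupp.single x₀ 1)) = f := by
      ext σ
      rw [pr_single, one_mul]
      exact coind_one N f hfi σ
    rw [e1]
    have e2 : ofFun f (push φ fund) = V (push φ fund) := by
      have := eq_of_sg (ofFun f ∘ₗ push φ) (V ∘ₗ push φ) (fun l hl => by
        match l, hl with
        | [p, q, r', s], _ =>
          simp only [LinearMap.comp_apply, push_sg, List.map_cons, List.map_nil]
          rw [ofFun_sg]
          rfl) fund_mem_deg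
      exact this
    rw [e2, hV, LinearMap.comp_apply, push_push]
    have h6 : r ∘ φ = fun x => x := by ext x <;> simp [hr2]
    rw [h6, push_id, nu_fund]
  rw [pair_transfer P hPe hPc hu, pair_capOne] at h1
  -- the cap product with a coboundary is a boundary
  set E : (Fin 4 → G) → (ℝ →ₗ[ℝ] ℝ) := fun τ =>
    (pr (P τ) (tw w (perm G (G ⧸ N)) (τ 3) b)) • LinearMap.id with hE
  have h2 : pair E (vbd μ) = 0 := by
    refine pair_rel _ E ?_ hμ
    intro g σ a
    simp only [hE, LinearMap.smul_apply, LinearMap.id_apply, smul_eq_mul, tw_apply, map_mul,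
      Module.End.mul_apply, map_smul, MonoidHom.one_apply, Module.End.one_apply, Units.val_mul,
      Int.cast_mul]
    rw [pr_perm g (P σ) _ (hPe g σ)]
    have h3 := sq_sign w g
    linear_combination (((w (σ 3) : ℤ) : ℝ) * (pr (P σ)) (perm G (G ⧸ N) (σ 3) b) * a) * h3
  rw [pair_vbd] at h2
  have h3 : pair (fun τ : Fin 5 → G =>
      ∑ i : Fin 5, (-1 : ℝ) ^ (i : ℕ) • E (fun j => τ (i.succAbove j))) μ =
      - μ.sum fun σ r => r * pr (P ![σ 0, σ 1, σ 2, σ 3]) (c ![σ 3, σ 4]) := by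
    rw [pair, Finsupp.lsum_apply, Finsupp.sum, Finsupp.sum, ← Finset.sum_neg_distrib]
    apply Finset.sum_congr rfl
    intro σ _
    have h4 : ∑ i : Fin 5, (-1 : ℝ) ^ (i : ℕ) *
        pr (P (fun j => σ (i.succAbove j))) (tw w (perm G (G ⧸ N)) (σ 4) b) = 0 := by
      have h5 : ∑ i : Fin 5, (-1 : ℝ) ^ (i : ℕ) • pr (P (fun j => σ (i.succAbove j))) = 0 := by
        apply Finsupp.lhom_ext
        intro x a
        simp only [LinearMap.sum_apply, LinearMap.smul_apply, pr_single, smul_eq_mul,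
          LinearMap.zero_apply]
        have h6 : ∑ i : Fin 5, (-1 : ℝ) ^ (i : ℕ) * (a * P (fun j => σ (i.succAbove j)) x) =
            a * ∑ i : Fin 5, (-1 : ℝ) ^ (i : ℕ) * P (fun j => σ (i.succAbove j)) x := by
          rw [Finset.mul_sum]
          apply Finset.sum_congr rfl
          intro i _
          ring
        rw [h6, hPc, mul_zero]
      have h7 := LinearMap.congr_fun h5 (tw w (perm G (G ⧸ N)) (σ 4) b)
      simpa only [LinearMap.sum_apply, LinearMap.smul_apply, smul_eq_mul,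
        LinearMap.zero_apply] using h7
    rw [LinearMap.sum_apply, hb, map_sub]
    rw [Fin.sum_univ_five] at h4 ⊢
    have d4 : (fun j : Fin 4 => σ ((4 : Fin 5).succAbove j)) = ![σ 0, σ 1, σ 2, σ 3] := by
      ext j; fin_cases j <;> rfl
    have i0 : (0 : Fin 5).succAbove (3 : Fin 4) = 4 := rfl
    have i1 : (1 : Fin 5).succAbove (3 : Fin 4) = 4 := rfl
    have i2 : (2 : Fin 5).succAbove (3 : Fin 4) = 4 := rfl
    have i3 : (3 : Fin 5).succAbove (3 : Fin 4) = 4 := rfl
    have i4 : (4 : Fin 5).succAbove (3 : Fin 4) = 3 := rfl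
    simp only [hE, LinearMap.smul_apply, LinearMap.id_apply, smul_eq_mul, i0, i1, i2, i3, i4]
    rw [d4] at h4 ⊢
    have p3 : (-1 : ℝ) ^ ((3 : Fin 5) : ℕ) = -1 := by norm_num [show ((3 : Fin 5) : ℕ) = 3 from rfl]
    have p4 : (-1 : ℝ) ^ ((4 : Fin 5) : ℕ) = 1 := by norm_num [show ((4 : Fin 5) : ℕ) = 4 from rfl]
    rw [p3, p4] at h4 ⊢
    linear_combination (μ σ) * h4
  rw [h3, h1] at h2
  norm_num at h2

end Pool.Agent.H36PD4
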