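import Mathlib
import Pool.Agent.H36PD4.Main

set_option autoImplicit false

/-!
# From Heisenberg groups to nilpotent groups
-/

namespace Pool.Agent.H36PD4

open Pool.Agent.AutDim3

/-- A torsion-free nilpotent subgroup is commutative if there are no Heisenberg subgroups. -/
theorem comm_of_no_heis {G : Type} [Group G]
    (hno : ∀ φ : Heis →* G, Function.Injective φ → False)
    (H : Subgroup G) (hH : Group.IsNilpotent H) (ht : ∀ g ∈ H, g ≠ 1 → ¬ IsOfFinOrder g) :
    ∀ a ∈ H, ∀ b ∈ H, a * b = b * a := by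
  by_contra hcon
  push Not at hcon
  obtain ⟨a, ha, b, hb, hab⟩ := hcon
  obtain ⟨φ, hφ⟩ := exists_heis (N := H)
    (by
      intro g hg hfin
      refine ht g.1 g.2 ?_ ?_
      · intro h; exact hg (Subtype.ext h)
      · exact H.subtype.isOfFinOrder hfin)
    ⟨⟨a, ha⟩, ⟨b, hb⟩, fun h => hab (by simpa using congrArg Subtype.val h)⟩
  exact hno (H.subtype.comp φ) (by
    rw [MonoidHom.coe_comp]
    exact Subtype.val_injective.comp hφ)

/-- Nilpotent subgroups that are finitely generated or virtually torsion-free are virtually abelian if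
there are no Heisenberg subgroups. -/
theorem virtually_abelian_of_no_heis {G : Type} [Group G]
    (hno : ∀ φ : Heis →* G, Function.Injective φ → False)
    (H : Subgroup G) (hH : Group.IsNilpotent H)
    (h : H.FG ∨ ∃ T : Subgroup G, T.relIndex H ≠ 0 ∧ ∀ g ∈ T, g ≠ 1 → ¬ IsOfFinOrder g) :
    ∃ A : Subgroup G, A ≤ H ∧ (A.subgroupOf H).index ≠ 0 ∧
      ∀ a ∈ A, ∀ b ∈ A, a * b = b * a := by
  rcases h with hfg | ⟨T, hT, ht⟩
  · obtain ⟨B, hB, hBc⟩ := virtually_abelian_of_fg H ((Group.fg_iff_subgroup_fg H).mpr hfg)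
      (fun φ hφ => hno (H.subtype.comp φ) (by
        rw [MonoidHom.coe_comp]
        exact Subtype.val_injective.comp hφ))
    refine ⟨B.map H.subtype, Subgroup.map_subtype_le B, ?_, ?_⟩
    · have : (B.map H.subtype).subgroupOf H = B :=
        Subgroup.comap_map_eq_self_of_injective H.subtype_injective B
      rw [this]
      exact hB
    · rintro _ ⟨a, ha, rfl⟩ _ ⟨b, hb, rfl⟩
      rw [← map_mul, ← map_mul, hBc a ha b hb]
  · refine ⟨T ⊓ H, inf_le_right, ?_, ?_⟩
    · have : (T ⊓ H).subgroupOf H = T.subgroupOf H := by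
        rw [Subgroup.inf_subgroupOf_right]
      rw [this]
      exact hT
    · apply comm_of_no_heis hno (T ⊓ H)
      · have : Group.IsNilpotent ((T ⊓ H).subgroupOf H) := inferInstance
        exact (Group.isNilpotent_congr
          (Subgroup.subgroupOfEquivOfLe (inf_le_right : T ⊓ H ≤ H))).mp this
      · intro g hg
        exact ht g hg.1

end Pool.Agent.H36PD4
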